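import Pool.Agent.SPV.Defs
import Pool.Agent.Helper24_Sparse.Bound

/-!
# Squad SPV, row NRM
-/

set_option autoImplicit false

namespace Pool.Agent.SPV.H27

open Finset Matrix

/-- the coefficients as a function on `Fin q` -/
def cf {q : ℕ} [NeZero q] (b : ZMod q → ℤ) (s : Fin q) : ℤ := b ((s : ℕ) : ZMod q)

theorem ev_eq {q : ℕ} [NeZero q] {K : Type} [CommRing K] (b : ZMod q → ℤ) (x : K) :
    ev b x = Pool.Agent.Helper24_Sparse.ev (cf b) x := by
  unfold ev Pool.Agent.Helper24_Sparse.ev cf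
  refine Finset.sum_nbij' (fun e => (⟨e.val, ZMod.val_lt e⟩ : Fin q)) (fun s => ((s : ℕ) : ZMod q))
    (fun _ _ => mem_univ _) (fun _ _ => mem_univ _) ?_ ?_ ?_
  · intro e _
    simp
  · intro s _
    apply Fin.ext
    simp [ZMod.val_natCast, Nat.mod_eq_of_lt s.2]
  · intro e _
    simp

/-- the product over the nonzero elements of `Fin q` -/
theorem prod_erase {q : ℕ} [NeZero q] {M : Type} [CommMonoid M] (f : ℕ → M) :
    ∏ s ∈ (univ : Finset (Fin q)).erase 0, f (s : ℕ) = ∏ j ∈ Ico 1 q, f j := by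
  refine Finset.prod_bij (fun s _ => (s : ℕ)) ?_ ?_ ?_ ?_
  · intro s hs
    rw [mem_Ico]
    refine ⟨?_, s.2⟩
    rw [Nat.one_le_iff_ne_zero]
    intro h
    exact (mem_erase.mp hs).1 (Fin.ext (by simpa using h))
  · intro s _ t _ h
    exact Fin.ext h
  · intro j hj
    rw [mem_Ico] at hj
    refine ⟨⟨j, hj.2⟩, ?_, rfl⟩
    rw [mem_erase]
    refine ⟨?_, mem_univ _⟩
    intro h
    have := congrArg (fun s : Fin q => (s : ℕ)) h
    simp at this
    omega
  · intro s _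
    rfl

/-- the polynomial over the integers -/
noncomputable def pl {q : ℕ} [NeZero q] (b : ZMod q → ℤ) : Polynomial ℤ :=
  ∑ e : ZMod q, Polynomial.C (b e) * Polynomial.X ^ e.val

theorem aeval_pl {q : ℕ} [NeZero q] (b : ZMod q → ℤ) (x : ℂ) : Polynomial.aeval x (pl b) = ev b x := by
  unfold pl ev
  simp [map_sum]

theorem ev_pow_ne_zero {q : ℕ} [NeZero q] (hq : q.Prime) (b : ZMod q → ℤ) (w : ℂ)
    (hw : IsPrimitiveRoot w q) (h : ev b w ≠ 0) (j : ℕ) (hj : j ∈ Ico 1 q) : ev b (w ^ j) ≠ 0 := by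
  intro h0
  apply h
  rw [mem_Ico] at hj
  have hc : Nat.Coprime j q := by
    rw [Nat.coprime_comm, Nat.Prime.coprime_iff_not_dvd hq]
    intro h1
    have := Nat.eq_zero_of_dvd_of_lt h1 hj.2
    omega
  have hwj : IsPrimitiveRoot (w ^ j) q := hw.pow_of_coprime _ hc
  rw [← aeval_pl] at h0 ⊢
  have h1 := minpoly.isIntegrallyClosed_dvd (hwj.isIntegral hq.pos) h0
  rw [← Polynomial.cyclotomic_eq_minpoly hwj hq.pos, Polynomial.cyclotomic_eq_minpoly hw hq.pos] at h1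
  obtain ⟨g, hg⟩ := h1
  rw [hg, map_mul, minpoly.aeval, zero_mul]

theorem ev_integral {q : ℕ} [NeZero q] (b : ZMod q → ℤ) (x : ℂ) (hx : IsIntegral ℤ x) :
    IsIntegral ℤ (ev b x) := by
  unfold ev
  refine IsIntegral.sum _ fun e _ => IsIntegral.mul ?_ (IsIntegral.pow hx _)
  exact isIntegral_algebraMap (R := ℤ) (A := ℂ) (x := b e)

theorem pow_dvd_part {q : ℕ} [NeZero q] (b : ZMod q → ℤ) (p : ℕ) [Fact p.Prime]
    (z : ZMod p) (hz : IsPrimitiveRoot z q) (U : Finset ℕ) (hU : U ⊆ Ico 1 q)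
    (h0 : ∀ u ∈ U, ev b (z ^ u) = 0) :
    (p : ℤ) ^ U.card ∣ (Helper24_Sparse.circ (cf b)).det ∧
      (p : ℤ) ^ U.card ∣ (Helper24_Sparse.circ fun t => cf b t + 1).det := by
  set T : Finset (Fin q) := univ.filter fun s : Fin q => (s : ℕ) ∈ U with hT
  have hcard : T.card = U.card := by
    refine Finset.card_bij (fun s _ => (s : ℕ)) ?_ ?_ ?_
    · intro s hs
      exact (mem_filter.mp hs).2
    · intro s _ t _ h
      exact Fin.ext h
    · intro j hj
      have hj' := mem_Ico.mp (hU hj)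
      exact ⟨⟨j, hj'.2⟩, mem_filter.mpr ⟨mem_univ _, hj⟩, rfl⟩
  have hzs : ∀ s : Fin q, (z ^ (s : ℕ)) ^ q = 1 := fun s => by
    rw [← pow_mul, mul_comm, pow_mul, hz.pow_eq_one, one_pow]
  have hzi : Function.Injective fun s : Fin q => z ^ (s : ℕ) := fun s t h =>
    Fin.ext (hz.pow_inj s.2 t.2 h)
  have hTz : ∀ s ∈ T, Helper24_Sparse.ev (cf b) (z ^ (s : ℕ)) = 0 := by
    intro s hs
    rw [← ev_eq]
    exact h0 _ (mem_filter.mp hs).2
  rw [← hcard]
  refine ⟨Helper24_Sparse.pow_dvd_circ p _ _ hzs hzi T hTz, ?_⟩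
  refine Helper24_Sparse.pow_dvd_circ p _ _ hzs hzi T fun s hs => ?_
  rw [Helper24_Sparse.ev_add_one, hTz s hs, zero_add,
    Fin.sum_univ_eq_sum_range (fun n => (z ^ (s : ℕ)) ^ n)]
  have h1 := geom_sum_mul (z ^ (s : ℕ)) q
  rw [hzs s, sub_self] at h1
  refine (mul_eq_zero.mp h1).resolve_right (sub_ne_zero.mpr ?_)
  intro h2
  have h3 : (s : ℕ) = 0 := hz.pow_inj s.2 (Nat.pos_of_ne_zero (NeZero.ne q)) (by rw [h2, pow_zero])
  have h4 := mem_Ico.mp (hU (mem_filter.mp hs).2)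
  omega

theorem dets {q : ℕ} [NeZero q] (b : ZMod q → ℤ) (w : ℂ) (hw : IsPrimitiveRoot w q) :
    (((Helper24_Sparse.circ fun t => cf b t + 1).det - (Helper24_Sparse.circ (cf b)).det : ℤ) : ℂ) =
      q * ∏ j ∈ Ico 1 q, ev b (w ^ j) := by
  have hq0 : 0 < q := Nat.pos_of_ne_zero (NeZero.ne q)
  have hwz : ∀ s : Fin q, (w ^ (s : ℕ)) ^ q = 1 := fun s => by
    rw [← pow_mul, mul_comm, pow_mul, hw.pow_eq_one, one_pow]
  have hwi : Function.Injective fun s : Fin q => w ^ (s : ℕ) := fun s t h =>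
    Fin.ext (hw.pow_inj s.2 t.2 h)
  set N : ℂ := ∏ s ∈ univ.erase (0 : Fin q), Helper24_Sparse.ev (cf b) (w ^ (s : ℕ)) with hN
  have hN' : N = ∏ j ∈ Ico 1 q, ev b (w ^ j) := by
    rw [hN, prod_erase (fun j => Helper24_Sparse.ev (cf b) (w ^ j))]
    exact prod_congr rfl fun j _ => (ev_eq b _).symm
  have hne1 : ∀ s ∈ univ.erase (0 : Fin q), w ^ (s : ℕ) ≠ 1 := by
    intro s hs h
    have h1 : (s : ℕ) = 0 := hw.pow_inj s.2 hq0 (by rw [h, pow_zero])
    exact (mem_erase.mp hs).1 (Fin.ext (by simpa using h1))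
  have hd0 : ((Helper24_Sparse.circ (cf b)).det : ℂ) = Helper24_Sparse.ev (cf b) 1 * N := by
    rw [Helper24_Sparse.det_circ _ _ hwz hwi, ← mul_prod_erase univ _ (mem_univ (0 : Fin q)), hN]
    simp
  have hd1 : ((Helper24_Sparse.circ fun t => cf b t + 1).det : ℂ) =
      (Helper24_Sparse.ev (cf b) 1 + q) * N := by
    rw [Helper24_Sparse.det_circ _ _ hwz hwi, ← mul_prod_erase univ _ (mem_univ (0 : Fin q))]
    congr 1
    · rw [Helper24_Sparse.ev_add_one]
      simp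
    · refine prod_congr rfl fun s hs => ?_
      rw [Helper24_Sparse.ev_add_one, Helper24_Sparse.geom_zero _ (hwz s) (hne1 s hs), add_zero]
  rw [Int.cast_sub, hd0, hd1, ← hN']
  ring

theorem nrm : NrmStmt := by
  intro q _ hq b w hw hb
  set D : ℤ := (Helper24_Sparse.circ fun t => cf b t + 1).det - (Helper24_Sparse.circ (cf b)).det
    with hD
  have hDe : (D : ℂ) = q * ∏ j ∈ Ico 1 q, ev b (w ^ j) := dets b w hw
  have hqC : (q : ℂ) ≠ 0 := by exact_mod_cast hq.ne_zero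
  have hPne : ∏ j ∈ Ico 1 q, ev b (w ^ j) ≠ 0 :=
    prod_ne_zero_iff.mpr fun j hj => ev_pow_ne_zero hq b w hw hb j hj
  have hint : IsIntegral ℤ (∏ j ∈ Ico 1 q, ev b (w ^ j)) :=
    IsIntegral.prod _ fun j _ => ev_integral b _ (IsIntegral.pow (hw.isIntegral hq.pos) j)
  have hrat : algebraMap ℚ ℂ ((D : ℚ) / q) = ∏ j ∈ Ico 1 q, ev b (w ^ j) := by
    rw [eq_ratCast]
    push_cast
    rw [hDe]
    field_simp
  have hint' : IsIntegral ℤ ((D : ℚ) / q) := by
    rw [← hrat] at hint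
    exact (isIntegral_algebraMap_iff (algebraMap ℚ ℂ).injective).mp hint
  obtain ⟨N, hN⟩ := IsIntegrallyClosed.isIntegral_iff.mp hint'
  have hNe : (N : ℂ) = ∏ j ∈ Ico 1 q, ev b (w ^ j) := by
    rw [← hrat, ← hN]
    simp
  have hDN : D = q * N := by
    have : (D : ℂ) = ((q * N : ℤ) : ℂ) := by
      rw [hDe, ← hNe]
      push_cast
      ring
    exact_mod_cast this
  refine ⟨N, ?_, ?_, ?_⟩
  · intro h
    apply hPne
    rw [← hNe, h]
    simp
  · have h1 := congrArg norm hNe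
    rw [Complex.norm_intCast, norm_prod] at h1
    exact h1
  · intro p _ hpq z hz U hU h0
    obtain ⟨h1, h2⟩ := pow_dvd_part b p z hz U hU h0
    have h3 : (p : ℤ) ^ U.card ∣ q * N := by
      rw [← hDN, hD]
      exact dvd_sub h2 h1
    have hcop : IsCoprime ((p : ℤ) ^ U.card) (q : ℤ) := by
      refine IsCoprime.pow_left ?_
      rw [Nat.isCoprime_iff_coprime]
      exact (Nat.coprime_primes Fact.out hq).mpr hpq
    exact hcop.dvd_of_dvd_mul_left h3

end Pool.Agent.SPV.H27
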